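import Mathlib

/-!
# MP_339e71_al, Q1: the intersection of two echelon subgroups need not be echelon

In `F_2 = ⟨a, b⟩` put `H = ⟨a, b²a²b²⟩` (echelon with respect to `(a, b)`) and
`G = ⟨ab², a²b²a⟩` (echelon with respect to `(ab², b)`).  Then `H ∩ G` has rank 2 (it is
`⟨(a²b²)², (ab²a)²⟩`) and contains no non-trivial power of a primitive element of `F_2`, so it is
not echelon.
-/

namespace Pool.Agent.Results.MP_339e71_al.EchelonIntersection

/-- The subgroup `H` is free of rank `r`. -/
def HasRank {F : Type} [Group F] (H : Subgroup F) (r : ℕ) : Prop :=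
  Nonempty (FreeGroup (Fin r) ≃* H)

/-- `F_i = ⟨x_1, …, x_i⟩`, for an ordered free basis `X = (x_1, …, x_n)` of `F_n`. -/
def flag {n : ℕ} (X : FreeGroupBasis (Fin n) (FreeGroup (Fin n))) (i : ℕ) :
    Subgroup (FreeGroup (Fin n)) :=
  Subgroup.closure {g | ∃ j : Fin n, (j : ℕ) < i ∧ g = X j}

/-- `H` is in echelon form with respect to the ordered basis `X`:
`rk (H ∩ F_{i+1}) - rk (H ∩ F_i) ≤ 1` for `i = 0, …, n - 1`. -/
def InEchelonForm {n : ℕ} (X : FreeGroupBasis (Fin n) (FreeGroup (Fin n)))
    (H : Subgroup (FreeGroup (Fin n))) : Prop :=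
  ∀ i < n, ∃ r s : ℕ, HasRank (H ⊓ flag X (i + 1)) r ∧ HasRank (H ⊓ flag X i) s ∧ r ≤ s + 1

/-- `H` is an echelon subgroup of `F_n`. -/
def IsEchelon {n : ℕ} (H : Subgroup (FreeGroup (Fin n))) : Prop :=
  ∃ X : FreeGroupBasis (Fin n) (FreeGroup (Fin n)), InEchelonForm X H

/-! ### Ranks -/

/-- homomorphisms to `ℤ/2` bound the rank -/
theorem exists_rank_le {F : Type} [Group F] [IsFreeGroup F] (H : Subgroup F) (k : ℕ)
    (g : Fin k → F) (hg : Subgroup.closure (Set.range g) = H) :
    ∃ r ≤ k, HasRank H r := by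
  classical
  subst hg
  set H := Subgroup.closure (Set.range g) with hH
  haveI : IsFreeGroup H := subgroupIsFreeOfIsFree H
  let ι := IsFreeGroup.Generators H
  let C := Multiplicative (ZMod 2)
  let gg : Fin k → H := fun i => ⟨g i, Subgroup.subset_closure ⟨i, rfl⟩⟩
  have htop : Subgroup.closure (Set.range gg) = ⊤ := by
    have h1 := Subgroup.closure_closure_coe_preimage (k := Set.range g)
    rw [← h1]
    congr 1
    ext x
    constructor
    · rintro ⟨i, rfl⟩
      exact ⟨i, rfl⟩
    · rintro ⟨i, hi⟩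
      exact ⟨i, Subtype.ext hi⟩
  let Φ : (ι → C) → (Fin k → C) := fun f i => IsFreeGroup.lift f (gg i)
  have hΦ : Function.Injective Φ := by
    intro f f' h
    have h1 : (IsFreeGroup.lift f : H →* C) = IsFreeGroup.lift f' := by
      apply MonoidHom.eq_of_eqOn_top
      rw [← htop]
      apply MonoidHom.eqOn_closure
      rintro _ ⟨i, rfl⟩
      exact congrFun h i
    exact IsFreeGroup.lift.injective h1
  have hfin : Finite (ι → C) := Finite.of_injective Φ hΦ
  have hι : Finite ι := by
    let Ψ : ι → (ι → C) := fun i => Pi.mulSingle i (Multiplicative.ofAdd 1)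
    have hΨ : Function.Injective Ψ := by
      intro i j h
      by_contra hij
      have := congrFun h i
      simp only [Ψ] at this
      rw [Pi.mulSingle_eq_same, Pi.mulSingle_eq_of_ne hij] at this
      have h2 : (1 : ZMod 2) = 0 := this
      exact one_ne_zero h2
    exact Finite.of_injective Ψ hΨ
  haveI := Fintype.ofFinite ι
  have hcard : Fintype.card ι ≤ k := by
    have h1 := Fintype.card_le_of_injective Φ hΦ
    rw [Fintype.card_fun, Fintype.card_fun, Fintype.card_fin] at h1
    have h2 : Fintype.card C = 2 := by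
      show Fintype.card (ZMod 2) = 2
      exact ZMod.card 2
    rw [h2] at h1
    exact (Nat.pow_le_pow_iff_right (by norm_num)).1 h1
  refine ⟨Fintype.card ι, hcard, ⟨?_⟩⟩
  exact (FreeGroup.freeGroupCongr (Fintype.equivFin ι).symm).trans (IsFreeGroup.mulEquiv H)

theorem freeGroup_zero (x : FreeGroup (Fin 0)) : x = 1 := by
  apply Subsingleton.elim

theorem freeGroup_one_comm (x y : FreeGroup (Fin 1)) : x * y = y * x := by
  have h : ∀ x : FreeGroup (Fin 1), Commute (FreeGroup.of 0) x := by
    intro x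
    induction x using FreeGroup.induction_on with
    | C1 => exact Commute.one_right _
    | of i => rw [Subsingleton.elim i 0]
    | inv_of i hi => exact hi.inv_right
    | mul x y hx hy => exact hx.mul_right hy
  have h2 : ∀ x : FreeGroup (Fin 1), Commute x y := by
    intro x
    induction x using FreeGroup.induction_on with
    | C1 => exact Commute.one_left _
    | of i => rw [Subsingleton.elim i 0]; exact h y
    | inv_of i hi => exact hi.inv_left
    | mul x y hx hy => exact hx.mul_left hy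
  exact h2 x

theorem rank_ge_one {F : Type} [Group F] {H : Subgroup F} {r : ℕ} (h : HasRank H r) {x : F}
    (hx : x ∈ H) (hx1 : x ≠ 1) : 1 ≤ r := by
  obtain ⟨e⟩ := h
  by_contra hr
  obtain rfl : r = 0 := by omega
  apply hx1
  have h1 : e.symm ⟨x, hx⟩ = 1 := freeGroup_zero _
  have h2 : (⟨x, hx⟩ : H) = 1 := by
    have := congrArg e h1
    simpa using this
  exact congrArg Subtype.val h2

theorem rank_ge_two {F : Type} [Group F] {H : Subgroup F} {r : ℕ} (h : HasRank H r) {x y : F}
    (hx : x ∈ H) (hy : y ∈ H) (hxy : x * y ≠ y * x) : 2 ≤ r := by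
  have h1 : 1 ≤ r := by
    refine rank_ge_one h hx ?_
    rintro rfl
    exact hxy (by simp)
  obtain ⟨e⟩ := h
  by_contra hr
  obtain rfl : r = 1 := by omega
  apply hxy
  have h1 := freeGroup_one_comm (e.symm ⟨x, hx⟩) (e.symm ⟨y, hy⟩)
  rw [← map_mul, ← map_mul] at h1
  have h2 := e.symm.injective h1
  exact congrArg Subtype.val h2

theorem rank_bot_zero {F : Type} [Group F] {H : Subgroup F} {r : ℕ} (h : HasRank H r)
    (hH : H = ⊥) : r = 0 := by
  obtain ⟨e⟩ := h
  subst hH
  by_contra hr
  obtain ⟨m, rfl⟩ : ∃ m, r = m + 1 := ⟨r - 1, by omega⟩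
  have h1 : e (FreeGroup.of 0) = e 1 := Subsingleton.elim _ _
  have h2 := e.injective h1
  exact FreeGroup.of_ne_one _ h2

/-! ### The two subgroups -/

abbrev F₂ := FreeGroup (Fin 2)

def a : F₂ := FreeGroup.of 0
def b : F₂ := FreeGroup.of 1

/-- `H = ⟨a, b²a²b²⟩` -/
def H : Subgroup F₂ := Subgroup.closure {a, b * b * a * a * b * b}

/-- `G = ⟨ab², a²b²a⟩` -/
def G : Subgroup F₂ := Subgroup.closure {a * b * b, a * a * b * b * a}

/-! ### Reading words in labelled graphs -/

/-- labelled graphs on 6 vertices as lists of edges (source, label, target) -/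
abbrev Gr := List (Fin 6 × Fin 2 × Fin 6)

def step (E : Gr) (s : Fin 6) (l : Fin 2 × Bool) : Option (Fin 6) :=
  if l.2 then (E.find? (fun e => e.1 = s ∧ e.2.1 = l.1)).map (fun e => e.2.2)
  else (E.find? (fun e => e.2.2 = s ∧ e.2.1 = l.1)).map (fun e => e.1)

def run (E : Gr) : Fin 6 → List (Fin 2 × Bool) → Option (Fin 6)
  | s, [] => some s
  | s, l :: L => (step E s l).bind (fun t => run E t L)

/-- the graph is folded -/
def Folded (E : Gr) : Prop :=
  ∀ (s t : Fin 6) (i : Fin 2) (c : Bool), step E s (i, c) = some t → step E t (i, !c) = some s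

theorem run_append (E : Gr) (s : Fin 6) (L L' : List (Fin 2 × Bool)) :
    run E s (L ++ L') = (run E s L).bind (fun t => run E t L') := by
  induction L generalizing s with
  | nil => rfl
  | cons l L ih =>
    rw [List.cons_append, run, run]
    cases step E s l with
    | none => rfl
    | some t => exact ih t

theorem run_step {E : Gr} (hE : Folded E) {L L' : List (Fin 2 × Bool)}
    (h : FreeGroup.Red.Step L L') {s t : Fin 6} (hr : run E s L = some t) :
    run E s L' = some t := by
  cases h with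
  | @not L₁ L₂ x c =>
    rw [run_append] at hr ⊢
    cases h1 : run E s L₁ with
    | none => rw [h1] at hr; simp at hr
    | some u =>
      rw [h1] at hr
      simp only [Option.bind_some] at hr ⊢
      rw [run] at hr
      cases h2 : step E u (x, c) with
      | none => rw [h2] at hr; simp at hr
      | some v =>
        rw [h2] at hr
        simp only [Option.bind_some] at hr
        rw [run, hE u v x c h2] at hr
        simpa using hr

theorem run_red {E : Gr} (hE : Folded E) {L L' : List (Fin 2 × Bool)}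
    (h : FreeGroup.Red L L') {s t : Fin 6} (hr : run E s L = some t) :
    run E s L' = some t := by
  induction h with
  | refl => exact hr
  | tail _ h2 ih => exact run_step hE h2 ih

theorem run_inv {E : Gr} (hE : Folded E) (L : List (Fin 2 × Bool)) {s t : Fin 6}
    (hr : run E s L = some t) : run E t (FreeGroup.invRev L) = some s := by
  induction L generalizing s with
  | nil =>
    rw [run] at hr
    obtain rfl : s = t := by simpa using hr
    rfl
  | cons l L ih =>
    rw [run] at hr
    cases h1 : step E s l with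
    | none => rw [h1] at hr; simp at hr
    | some u =>
      rw [h1] at hr
      simp only [Option.bind_some] at hr
      have h2 := ih hr
      have h3 : FreeGroup.invRev (l :: L) = FreeGroup.invRev L ++ [(l.1, !l.2)] := by
        simp [FreeGroup.invRev]
      rw [h3, run_append, h2]
      simp only [Option.bind_some]
      rw [run, hE s u l.1 l.2 h1]
      rfl

/-- the elements that can be read as closed paths at the base point form a subgroup -/
theorem mem_run {E : Gr} (hE : Folded E) {S : Set F₂}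
    (hS : ∀ g ∈ S, ∃ L, FreeGroup.mk L = g ∧ run E 0 L = some 0) {g : F₂}
    (hg : g ∈ Subgroup.closure S) : run E 0 g.toWord = some 0 := by
  have h1 : ∃ L, FreeGroup.mk L = g ∧ run E 0 L = some 0 := by
    induction hg using Subgroup.closure_induction with
    | mem x hx => exact hS x hx
    | one => exact ⟨[], rfl, rfl⟩
    | mul x y _ _ hx hy =>
      obtain ⟨L, hL, hL'⟩ := hx
      obtain ⟨M, hM, hM'⟩ := hy
      refine ⟨L ++ M, ?_, ?_⟩
      · rw [← FreeGroup.mul_mk, hL, hM]
      · rw [run_append, hL']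
        exact hM'
    | inv x _ hx =>
      obtain ⟨L, hL, hL'⟩ := hx
      refine ⟨FreeGroup.invRev L, ?_, run_inv hE L hL'⟩
      rw [← FreeGroup.inv_mk, hL]
  obtain ⟨L, hL, hL'⟩ := h1
  have h2 : FreeGroup.Red L g.toWord := by
    rw [← hL, FreeGroup.toWord_mk]
    exact FreeGroup.reduce.red
  exact run_red hE h2 hL'

/-- the Stallings graph of `H` -/
def EH : Gr := [(0, 0, 0), (0, 1, 1), (1, 1, 2), (2, 0, 3), (3, 0, 4), (4, 1, 5), (5, 1, 0)]

/-- the Stallings graph of `G` -/
def EG : Gr := [(0, 0, 1), (1, 1, 2), (2, 1, 0), (1, 0, 3), (3, 1, 4), (4, 1, 5), (5, 0, 0)]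

theorem foldedH : Folded EH := by unfold Folded; decide

theorem foldedG : Folded EG := by unfold Folded; decide

/-! ### `H` and `G` are echelon -/

theorem flag_zero (X : FreeGroupBasis (Fin 2) F₂) : flag X 0 = ⊥ := by
  unfold flag
  rw [Subgroup.closure_eq_bot_iff]
  rintro g ⟨j, hj, -⟩
  exact absurd hj (Nat.not_lt_zero _)

theorem flag_one (X : FreeGroupBasis (Fin 2) F₂) :
    flag X 1 = Subgroup.closure (Set.range (fun _ : Fin 1 => X 0)) := by
  unfold flag
  congr 1
  ext g
  constructor
  · rintro ⟨j, hj, rfl⟩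
    obtain rfl : j = 0 := by ext; simpa using hj
    exact ⟨0, rfl⟩
  · rintro ⟨j, rfl⟩
    exact ⟨0, by norm_num, rfl⟩

theorem flag_two (X : FreeGroupBasis (Fin 2) F₂) : flag X 2 = ⊤ := by
  rw [eq_top_iff]
  intro g _
  have h1 : ∀ w : FreeGroup (Fin 2), X.repr.symm w ∈ flag X 2 := by
    intro w
    induction w using FreeGroup.induction_on with
    | C1 => rw [map_one]; exact Subgroup.one_mem _
    | of i => exact Subgroup.subset_closure ⟨i, i.2, rfl⟩
    | inv_of i hi => rw [map_inv]; exact Subgroup.inv_mem _ hi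
    | mul x y hx hy => rw [map_mul]; exact Subgroup.mul_mem _ hx hy
  have h2 := h1 (X.repr g)
  simpa using h2

theorem basis_ne_one (X : FreeGroupBasis (Fin 2) F₂) (i : Fin 2) : X i ≠ 1 := by
  intro h
  have h1 := X.repr_apply_coe i
  rw [h, map_one] at h1
  exact FreeGroup.of_ne_one i h1.symm

theorem inEchelonForm_of (X : FreeGroupBasis (Fin 2) F₂) (K : Subgroup F₂) (g : Fin 2 → F₂)
    (hg : Subgroup.closure (Set.range g) = K) (hX : X 0 ∈ K) : InEchelonForm X K := by
  obtain ⟨r2, h2, hr2⟩ := exists_rank_le K 2 g hg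
  have e1 : K ⊓ flag X 1 = flag X 1 := by
    apply inf_eq_right.2
    rw [flag_one, Subgroup.closure_le]
    rintro _ ⟨_, rfl⟩
    exact hX
  obtain ⟨r1, h1, hr1⟩ := exists_rank_le (K ⊓ flag X 1) 1 (fun _ => X 0)
    (by rw [e1, flag_one])
  obtain ⟨r0, h0, hr0⟩ := exists_rank_le (K ⊓ flag X 0) 0 (fun i => i.elim0)
    (by rw [flag_zero, inf_bot_eq, Set.range_eq_empty, Subgroup.closure_empty])
  have h3 : 1 ≤ r1 := by
    refine rank_ge_one hr1 (x := X 0) ?_ (basis_ne_one X 0)
    rw [e1, flag_one]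
    exact Subgroup.subset_closure ⟨0, rfl⟩
  intro i hi
  obtain rfl | rfl : i = 0 ∨ i = 1 := by omega
  · exact ⟨r1, r0, hr1, hr0, by omega⟩
  · refine ⟨r2, r1, ?_, hr1, by omega⟩
    rw [flag_two, inf_top_eq]
    exact hr2

theorem isEchelon_H : IsEchelon H := by
  refine ⟨FreeGroupBasis.ofFreeGroup (Fin 2), inEchelonForm_of _ H ![a, b * b * a * a * b * b] ?_
    ?_⟩
  · unfold H
    congr 1
    rw [Matrix.range_cons, Matrix.range_cons, Matrix.range_empty]
    simp [Set.pair_comm]
  · rw [FreeGroupBasis.ofFreeGroup_apply]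
    exact Subgroup.subset_closure (by simp [a])

/-- the automorphism `a ↦ ab²`, `b ↦ b` -/
def phi : F₂ ≃* F₂ :=
  MonoidHom.toMulEquiv (FreeGroup.lift ![a * b * b, b]) (FreeGroup.lift ![a * b⁻¹ * b⁻¹, b])
    (by ext i; fin_cases i <;> simp [a, b])
    (by ext i; fin_cases i <;> simp [a, b])

theorem isEchelon_G : IsEchelon G := by
  refine ⟨FreeGroupBasis.ofRepr phi.symm, inEchelonForm_of _ G ![a * b * b, a * a * b * b * a] ?_
    ?_⟩
  · unfold G
    congr 1
    rw [Matrix.range_cons, Matrix.range_cons, Matrix.range_empty]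
    simp [Set.pair_comm]
  · have h : (FreeGroupBasis.ofRepr phi.symm : FreeGroupBasis (Fin 2) F₂) 0 = a * b * b := by
      show phi (FreeGroup.of 0) = _
      simp [phi]
    rw [h]
    exact Subgroup.subset_closure (by simp)

/-! ### Exponent sums on `H ∩ G` -/

/-- exponent sums: `ea` is the exponent sum of `a`, `eb` that of `b`. -/
def ea : F₂ →* Multiplicative ℤ := FreeGroup.lift ![Multiplicative.ofAdd 1, 1]
def eb : F₂ →* Multiplicative ℤ := FreeGroup.lift ![1, Multiplicative.ofAdd 1]

/-- `[exponent sum of a] - [exponent sum of b]` of a word -/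
def wt : List (Fin 2 × Bool) → ℤ
  | [] => 0
  | l :: L => (if l.1 = 0 then (if l.2 then 1 else -1) else (if l.2 then -1 else 1)) + wt L

theorem wt_eq (L : List (Fin 2 × Bool)) :
    wt L = (ea (FreeGroup.mk L)).toAdd - (eb (FreeGroup.mk L)).toAdd := by
  induction L with
  | nil => simp [wt, FreeGroup.one_eq_mk.symm]
  | cons l L ih =>
    have h1 : FreeGroup.mk (l :: L) = FreeGroup.mk [l] * FreeGroup.mk L := by
      rw [FreeGroup.mul_mk]; rfl
    rw [h1, map_mul ea, map_mul eb, toAdd_mul, toAdd_mul, wt, ih]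
    obtain ⟨i, c⟩ := l
    fin_cases i <;> cases c <;> simp [ea, eb] <;> ring

/-- the vertices of the component of the base point in the product of the two graphs, with a
potential -/
def pot : List ((Fin 6 × Fin 6) × ℤ) :=
  [((0, 0), 0), ((0, 1), 1), ((0, 5), -1), ((5, 2), 1), ((0, 3), 2), ((1, 2), 0), ((5, 4), 0),
   ((4, 1), 2), ((1, 4), 1), ((2, 0), -1), ((4, 3), 1), ((3, 0), 1), ((2, 5), 0), ((3, 1), 0)]

theorem pot_step : ∀ e ∈ pot, ∀ (i : Fin 2) (c : Bool) (u v : Fin 6),
    step EH e.1.1 (i, c) = some u → step EG e.1.2 (i, c) = some v →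
    ((u, v), e.2 + (if i = 0 then (if c then 1 else -1) else (if c then -1 else 1))) ∈ pot := by
  decide

theorem pot_run (L : List (Fin 2 × Bool)) (e : (Fin 6 × Fin 6) × ℤ) (he : e ∈ pot)
    (u v : Fin 6) (hu : run EH e.1.1 L = some u) (hv : run EG e.1.2 L = some v) :
    ((u, v), e.2 + wt L) ∈ pot := by
  induction L generalizing e with
  | nil =>
    rw [run] at hu hv
    obtain rfl : e.1.1 = u := by simpa using hu
    obtain rfl : e.1.2 = v := by simpa using hv
    simpa [wt] using he
  | cons l L ih =>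
    rw [run] at hu hv
    cases h1 : step EH e.1.1 l with
    | none => rw [h1] at hu; simp at hu
    | some u' =>
      cases h2 : step EG e.1.2 l with
      | none => rw [h2] at hv; simp at hv
      | some v' =>
        rw [h1] at hu; rw [h2] at hv
        simp only [Option.bind_some] at hu hv
        have h3 := ih _ (pot_step e he l.1 l.2 u' v' h1 h2) hu hv
        rw [wt, ← add_assoc]
        exact h3

theorem pot_zero : ∀ e ∈ pot, e.1 = ((0, 0) : Fin 6 × Fin 6) → e.2 = 0 := by decide

theorem H_run {g : F₂} (hg : g ∈ H) : run EH 0 g.toWord = some 0 := by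
  refine mem_run foldedH ?_ hg
  rintro g (rfl | rfl)
  · exact ⟨[(0, true)], rfl, by decide⟩
  · exact ⟨[(1, true), (1, true), (0, true), (0, true), (1, true), (1, true)], rfl, by decide⟩

theorem G_run {g : F₂} (hg : g ∈ G) : run EG 0 g.toWord = some 0 := by
  refine mem_run foldedG ?_ hg
  rintro g (rfl | rfl)
  · exact ⟨[(0, true), (1, true), (1, true)], rfl, by decide⟩
  · exact ⟨[(0, true), (0, true), (1, true), (1, true), (0, true)], rfl, by decide⟩

/-- on `H ∩ G` the two exponent sums agree -/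
theorem ea_eq_eb {g : F₂} (hH : g ∈ H) (hG : g ∈ G) : ea g = eb g := by
  have h1 := pot_run g.toWord ((0, 0), 0) (by decide) 0 0 (H_run hH) (G_run hG)
  have h2 := pot_zero _ h1 rfl
  simp only [zero_add] at h2
  rw [wt_eq, FreeGroup.mk_toWord] at h2
  have h3 : (ea g).toAdd = (eb g).toAdd := by omega
  exact Multiplicative.toAdd.injective h3

/-! ### A representation in which `H` fixes a point -/

/-- `a` acts on `ℤ × Bool` by translation on the lower line -/
def permA : Equiv.Perm (ℤ × Bool) where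
  toFun p := if p.2 then p else (p.1 + 1, p.2)
  invFun p := if p.2 then p else (p.1 - 1, p.2)
  left_inv := by rintro ⟨n, _ | _⟩ <;> simp
  right_inv := by rintro ⟨n, _ | _⟩ <;> simp

/-- `b` exchanges the two lines -/
def permB : Equiv.Perm (ℤ × Bool) where
  toFun p := (p.1, !p.2)
  invFun p := (p.1, !p.2)
  left_inv := by rintro ⟨n, _ | _⟩ <;> simp
  right_inv := by rintro ⟨n, _ | _⟩ <;> simp

def rho : F₂ →* Equiv.Perm (ℤ × Bool) := FreeGroup.lift ![permA, permB]

theorem rho_a : rho a = permA := by simp [rho, a]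
theorem rho_b : rho b = permB := by simp [rho, b]

theorem H_fix {g : F₂} (hg : g ∈ H) : rho g (0, true) = (0, true) := by
  induction hg using Subgroup.closure_induction with
  | mem x hx =>
    rcases hx with rfl | rfl
    · rw [rho_a]; rfl
    · simp only [map_mul, rho_a, rho_b, Equiv.Perm.mul_apply]; rfl
  | one => simp
  | mul x y _ _ hx hy => rw [map_mul, Equiv.Perm.mul_apply, hy, hx]
  | inv x _ hx =>
    rw [map_inv, Equiv.Perm.inv_eq_iff_eq]
    exact hx.symm

/-- the shape of `rho g` -/
theorem rho_shape (g : F₂) : ∃ u v : ℤ, u + v = (ea g).toAdd ∧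
    ((Even (eb g).toAdd ∧ ∀ n, rho g (n, false) = (n + u, false) ∧ rho g (n, true) = (n + v, true))
      ∨ (Odd (eb g).toAdd ∧ ∀ n, rho g (n, false) = (n + u, true) ∧
        rho g (n, true) = (n + v, false))) := by
  have hmul : ∀ g h : F₂, (∃ u v : ℤ, u + v = (ea g).toAdd ∧
    ((Even (eb g).toAdd ∧ ∀ n, rho g (n, false) = (n + u, false) ∧ rho g (n, true) = (n + v, true))
      ∨ (Odd (eb g).toAdd ∧ ∀ n, rho g (n, false) = (n + u, true) ∧
        rho g (n, true) = (n + v, false)))) → (∃ u v : ℤ, u + v = (ea h).toAdd ∧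
    ((Even (eb h).toAdd ∧ ∀ n, rho h (n, false) = (n + u, false) ∧ rho h (n, true) = (n + v, true))
      ∨ (Odd (eb h).toAdd ∧ ∀ n, rho h (n, false) = (n + u, true) ∧
        rho h (n, true) = (n + v, false)))) → (∃ u v : ℤ, u + v = (ea (g * h)).toAdd ∧
    ((Even (eb (g * h)).toAdd ∧ ∀ n, rho (g * h) (n, false) = (n + u, false) ∧
        rho (g * h) (n, true) = (n + v, true))
      ∨ (Odd (eb (g * h)).toAdd ∧ ∀ n, rho (g * h) (n, false) = (n + u, true) ∧
        rho (g * h) (n, true) = (n + v, false)))) := by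
    rintro g h ⟨u, v, huv, h1⟩ ⟨u', v', huv', h1'⟩
    simp only [map_mul, toAdd_mul, Equiv.Perm.mul_apply]
    rcases h1 with ⟨e1, f1⟩ | ⟨e1, f1⟩ <;> rcases h1' with ⟨e2, f2⟩ | ⟨e2, f2⟩
    · refine ⟨u' + u, v' + v, by linarith, Or.inl ⟨e1.add e2, fun n => ?_⟩⟩
      rw [(f2 n).1, (f2 n).2, (f1 _).1, (f1 _).2, add_assoc, add_assoc]
      exact ⟨rfl, rfl⟩
    · refine ⟨u' + v, v' + u, by linarith, Or.inr ⟨e1.add_odd e2, fun n => ?_⟩⟩
      rw [(f2 n).1, (f2 n).2, (f1 _).1, (f1 _).2, add_assoc, add_assoc]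
      exact ⟨rfl, rfl⟩
    · refine ⟨u' + u, v' + v, by linarith, Or.inr ⟨e1.add_even e2, fun n => ?_⟩⟩
      rw [(f2 n).1, (f2 n).2, (f1 _).1, (f1 _).2, add_assoc, add_assoc]
      exact ⟨rfl, rfl⟩
    · refine ⟨u' + v, v' + u, by linarith, Or.inl ⟨e1.add_odd e2, fun n => ?_⟩⟩
      rw [(f2 n).1, (f2 n).2, (f1 _).1, (f1 _).2, add_assoc, add_assoc]
      exact ⟨rfl, rfl⟩
  have hinv : ∀ g : F₂, (∃ u v : ℤ, u + v = (ea g).toAdd ∧
    ((Even (eb g).toAdd ∧ ∀ n, rho g (n, false) = (n + u, false) ∧ rho g (n, true) = (n + v, true))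
      ∨ (Odd (eb g).toAdd ∧ ∀ n, rho g (n, false) = (n + u, true) ∧
        rho g (n, true) = (n + v, false)))) → (∃ u v : ℤ, u + v = (ea g⁻¹).toAdd ∧
    ((Even (eb g⁻¹).toAdd ∧ ∀ n, rho g⁻¹ (n, false) = (n + u, false) ∧
        rho g⁻¹ (n, true) = (n + v, true))
      ∨ (Odd (eb g⁻¹).toAdd ∧ ∀ n, rho g⁻¹ (n, false) = (n + u, true) ∧
        rho g⁻¹ (n, true) = (n + v, false)))) := by
    rintro g ⟨u, v, huv, h1⟩
    simp only [map_inv, toAdd_inv]
    rcases h1 with ⟨e1, f1⟩ | ⟨e1, f1⟩
    · refine ⟨-u, -v, by linarith, Or.inl ⟨e1.neg, fun n => ⟨?_, ?_⟩⟩⟩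
      · rw [Equiv.Perm.inv_eq_iff_eq, (f1 _).1]; simp
      · rw [Equiv.Perm.inv_eq_iff_eq, (f1 _).2]; simp
    · refine ⟨-v, -u, by linarith, Or.inr ⟨e1.neg, fun n => ⟨?_, ?_⟩⟩⟩
      · rw [Equiv.Perm.inv_eq_iff_eq, (f1 _).2]; simp
      · rw [Equiv.Perm.inv_eq_iff_eq, (f1 _).1]; simp
  have hgen : ∀ i : Fin 2, (∃ u v : ℤ, u + v = (ea (FreeGroup.of i)).toAdd ∧
    ((Even (eb (FreeGroup.of i)).toAdd ∧ ∀ n, rho (FreeGroup.of i) (n, false) = (n + u, false) ∧
        rho (FreeGroup.of i) (n, true) = (n + v, true))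
      ∨ (Odd (eb (FreeGroup.of i)).toAdd ∧ ∀ n, rho (FreeGroup.of i) (n, false) = (n + u, true) ∧
        rho (FreeGroup.of i) (n, true) = (n + v, false)))) := by
    intro i
    fin_cases i
    · refine ⟨1, 0, by simp [ea], Or.inl ⟨by simp [eb], fun n => ?_⟩⟩
      show rho a (n, false) = _ ∧ rho a (n, true) = _
      rw [rho_a]
      simp [permA]
    · refine ⟨0, 0, by simp [ea], Or.inr ⟨by simp [eb], fun n => ?_⟩⟩
      show rho b (n, false) = _ ∧ rho b (n, true) = _
      rw [rho_b]
      simp [permB]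
  induction g using FreeGroup.induction_on with
  | C1 => exact ⟨0, 0, by simp, Or.inl ⟨by simp, fun n => by simp⟩⟩
  | of i => exact hgen i
  | inv_of i hi => exact hinv _ hi
  | mul x y hx hy => exact hmul x y hx hy

/-! ### Primitive elements -/

theorem hom_eq (f : F₂ →* Multiplicative ℤ) (g : F₂) :
    (f g).toAdd = (f a).toAdd * (ea g).toAdd + (f b).toAdd * (eb g).toAdd := by
  induction g using FreeGroup.induction_on with
  | C1 => simp
  | of i => fin_cases i <;> simp [a, b, ea, eb]
  | inv_of i hi =>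
    rw [map_inv f, map_inv ea, map_inv eb, toAdd_inv, toAdd_inv, toAdd_inv, hi]; ring
  | mul x y hx hy =>
    rw [map_mul f, map_mul ea, map_mul eb, toAdd_mul, toAdd_mul, toAdd_mul, hx, hy]; ring

/-- no nontrivial power of a member of a basis lies in `H ∩ G` -/
theorem zpow_notMem (X : FreeGroupBasis (Fin 2) F₂) (k : ℤ) (hk : k ≠ 0)
    (h : (X 0) ^ k ∈ H ⊓ G) : False := by
  set p := X 0 with hp
  obtain ⟨hH, hG⟩ := h
  -- equal exponent sums
  have h1 := ea_eq_eb hH hG
  have h2 : k * (ea p).toAdd = k * (eb p).toAdd := by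
    have := congrArg Multiplicative.toAdd h1
    rwa [map_zpow ea, map_zpow eb, toAdd_zpow, toAdd_zpow, smul_eq_mul, smul_eq_mul] at this
  have h3 : (ea p).toAdd = (eb p).toAdd := mul_left_cancel₀ hk h2
  -- coprimality
  let f : F₂ →* Multiplicative ℤ := X.lift ![Multiplicative.ofAdd 1, 1]
  have hf : (f p).toAdd = 1 := by
    show (X.lift ![Multiplicative.ofAdd 1, 1] (X 0)).toAdd = 1
    rw [FreeGroupBasis.lift_apply_apply, FreeGroupBasis.repr_apply_coe]
    simp
  have h4 := hom_eq f p
  rw [hf, ← h3, ← add_mul] at h4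
  have h5 : IsUnit (ea p).toAdd := IsUnit.of_mul_eq_one _ (by rw [mul_comm]; exact h4.symm)
  have h6 : (ea p).toAdd = 1 ∨ (ea p).toAdd = -1 := Int.isUnit_iff.1 h5
  have hodd : Odd (eb p).toAdd := by
    rw [← h3]
    rcases h6 with h6 | h6 <;> rw [h6]
    · exact odd_one
    · exact odd_one.neg
  obtain ⟨u, v, huv, hs⟩ := rho_shape p
  rcases hs with ⟨he, -⟩ | ⟨-, hs⟩
  · exact (Int.not_even_iff_odd.2 hodd) he
  · -- `rho p ^ 2` is a translation on the upper line
    have hsq : ∀ n, rho (p * p) (n, true) = (n + (ea p).toAdd, true) := by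
      intro n
      rw [map_mul, Equiv.Perm.mul_apply, (hs n).2, (hs _).1, add_assoc, add_comm v u, huv]
    have hpow : ∀ (m : ℕ) (n : ℤ), rho ((p * p) ^ m) (n, true) = (n + m * (ea p).toAdd, true) := by
      intro m
      induction m with
      | zero => intro n; simp
      | succ m ih =>
        intro n
        rw [pow_succ', map_mul, Equiv.Perm.mul_apply, ih, hsq]
        push_cast
        congr 1
        ring
    have hfix := H_fix hH
    have hfix2 : rho ((p ^ k) * (p ^ k)) (0, true) = (0, true) := by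
      rw [map_mul, Equiv.Perm.mul_apply, hfix, hfix]
    have hkk : (p ^ k) * (p ^ k) = (p * p) ^ k := ((Commute.refl p).mul_zpow k).symm
    rw [hkk] at hfix2
    have hne : (ea p).toAdd ≠ 0 := h5.ne_zero
    rcases Int.natAbs_eq k with hk' | hk'
    · rw [hk', zpow_natCast, hpow] at hfix2
      have h7 := congrArg Prod.fst hfix2
      simp only [zero_add] at h7
      rcases mul_eq_zero.1 h7 with h8 | h8
      · apply hk; rw [hk', h8]
      · exact hne h8
    · rw [hk', zpow_neg, map_inv, Equiv.Perm.inv_eq_iff_eq, zpow_natCast, hpow] at hfix2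
      have h7 := congrArg Prod.fst hfix2
      simp only [zero_add] at h7
      rcases mul_eq_zero.1 h7.symm with h8 | h8
      · apply hk; rw [hk', h8]; rfl
      · exact hne h8

theorem not_isEchelon : ¬ IsEchelon (H ⊓ G) := by
  rintro ⟨X, hX⟩
  obtain ⟨r, s, hr, hs, hrs⟩ := hX 1 (by norm_num)
  rw [flag_two, inf_top_eq] at hr
  have h0 : (H ⊓ G) ⊓ flag X 1 = ⊥ := by
    rw [eq_bot_iff]
    rintro g ⟨hg, hg'⟩
    rw [flag_one] at hg'
    have h1 : Set.range (fun _ : Fin 1 => X 0) = {X 0} := Set.range_const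
    rw [h1, ← Subgroup.zpowers_eq_closure] at hg'
    obtain ⟨k, rfl⟩ := hg'
    by_cases hk : k = 0
    · subst hk; simp
    · exact (zpow_notMem X k hk hg).elim
  have hs0 : s = 0 := rank_bot_zero hs h0
  -- two non-commuting elements
  have hx : (a * a * b * b) * (a * a * b * b) ∈ H ⊓ G := by
    constructor
    · have h1 : (a * a * b * b) * (a * a * b * b) = a * a * (b * b * a * a * b * b) := by group
      rw [h1]
      have ha : a ∈ H := Subgroup.subset_closure (by simp)
      have hb : b * b * a * a * b * b ∈ H := Subgroup.subset_closure (by simp)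
      exact mul_mem (mul_mem ha ha) hb
    · have h1 : (a * a * b * b) * (a * a * b * b) = (a * a * b * b * a) * (a * b * b) := by group
      rw [h1]
      exact mul_mem (Subgroup.subset_closure (by simp)) (Subgroup.subset_closure (by simp))
  have hy : (a * b * b * a) * (a * b * b * a) ∈ H ⊓ G := by
    constructor
    · have h1 : (a * b * b * a) * (a * b * b * a) = a * (b * b * a * a * b * b) * a := by group
      rw [h1]
      have ha : a ∈ H := Subgroup.subset_closure (by simp)
      have hb : b * b * a * a * b * b ∈ H := Subgroup.subset_closure (by simp)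
      exact mul_mem (mul_mem ha hb) ha
    · have h1 : (a * b * b * a) * (a * b * b * a) = (a * b * b) * (a * a * b * b * a) := by group
      rw [h1]
      exact mul_mem (Subgroup.subset_closure (by simp)) (Subgroup.subset_closure (by simp))
  have h2 := rank_ge_two hr hx hy (by unfold a b; decide)
  omega

/-- **Q1 is false** (already for `n = 2`): there are echelon subgroups `H`, `G` of the free
group of rank 2 such that `H ∩ G` is not an echelon subgroup. -/
theorem result : ∃ H G : Subgroup (FreeGroup (Fin 2)),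
    IsEchelon H ∧ IsEchelon G ∧ ¬ IsEchelon (H ⊓ G) :=
  ⟨H, G, isEchelon_H, isEchelon_G, not_isEchelon⟩

end Pool.Agent.Results.MP_339e71_al.EchelonIntersection
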